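import Pool.Agent.W_be22fd_h27.GridDef

/-!
# The key states of the grid

The key state `i` of the outer sync pair `m` is `(M, i, t) = (m + 1, i, ini)`.  In the states
`(m + 1, i, t)` with `i ≤ 3` the heights of the core wires do not depend on `i` and `t`, and their
zones are between `-26` and `-6`.
-/

namespace Pool.Agent.W_be22fd_h41

open Pool.Agent.W_be22fd_h27

section
variable (B : Block) (X : ℕ)

/-- In the states `(M, i, t)`, `i ≤ 3`, `1 ≤ M`, the core wires rest. -/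
theorem hG_core_eq {M i i' : ℕ} (t t' : B.τ) (hM : 1 ≤ M) (hi : i ≤ 3) (hi' : i' ≤ 3)
    (p : Wire (GW B X) (X * X + 1)) (hp : p.IsCore) : hG B X M i t p = hG B X M i' t' p := by
  cases p with
  | inn w =>
    cases w with
    | old u o ho =>
      simp only [hG, hOld]
      have h0 : M ≠ 0 := by omega
      rw [if_neg h0, if_neg h0]
      have hc : ∀ y, clk B X M i t y = clk B X M i' t' y := by
        intro y
        unfold clk
        simp only [if_pos hi, if_pos hi']
      rw [hc]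
    | mv κ k =>
      simp only [hG, hMv]
      by_cases h1 : M < (k : ℕ) + 1
      · rw [if_pos (Or.inl h1), if_pos (Or.inl h1)]
      · by_cases h2 : M = (k : ℕ) + 1
        · rw [if_pos (Or.inr ⟨h2, hi⟩), if_pos (Or.inr ⟨h2, hi'⟩)]
        · have h3 : ∀ j : ℕ, ¬ (M < (k : ℕ) + 1 ∨ (M = (k : ℕ) + 1 ∧ j ≤ 3)) := by
            intro j h
            rcases h with h | h
            · exact h1 h
            · exact h2 h.1
          have h4 : ∀ j : ℕ, ¬ (M = (k : ℕ) + 1 ∧ j = 4) := fun j h => h2 h.1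
          rw [if_neg (h3 i), if_neg (h3 i'), if_neg (h4 i), if_neg (h4 i')]
  | L => rfl
  | C => rfl
  | S m => exact absurd hp (by simp [Wire.IsCore])
  | R m => exact absurd hp (by simp [Wire.IsCore])

/-- The zones of the core wires. -/
theorem hG_core_zone {M i : ℕ} (t : B.τ) (hM : M ≤ X * X + 1)
    (p : Wire (GW B X) (X * X + 1)) (hp : p.IsCore) :
    ∃ (z a b : ℤ) (c : B.α), hG B X M i t p = H4 z a b c ∧ -26 ≤ z ∧ z ≤ -6 := by
  cases p with
  | inn w =>
    cases w with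
    | old u o ho =>
      simp only [hG, hOld]
      split_ifs
      · exact ⟨_, _, _, _, rfl, by norm_num, by norm_num⟩
      · exact ⟨_, _, _, _, rfl, by norm_num, by norm_num⟩
    | mv κ k =>
      simp only [hG, hMv]
      split_ifs
      · refine ⟨_, _, _, _, rfl, ?_, ?_⟩ <;> cases κ <;> norm_num [MK.zb]
      · exact ⟨_, _, _, _, rfl, by norm_num, by norm_num⟩
      · refine ⟨_, _, _, _, rfl, ?_, ?_⟩ <;> cases κ <;> norm_num [MK.za]
  | L =>
    simp only [hG]
    rw [if_pos hM]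
    exact ⟨_, _, _, _, rfl, by norm_num, by norm_num⟩
  | C =>
    simp only [hG]
    rw [if_pos hM]
    exact ⟨_, _, _, _, rfl, by norm_num, by norm_num⟩
  | S m => exact absurd hp (by simp [Wire.IsCore])
  | R m => exact absurd hp (by simp [Wire.IsCore])

/-! ## The heights of the outer syncs at their key states -/

theorem hG_S_before {i : ℕ} (t : B.τ) (m : Fin (X * X + 1)) (hi : i ≤ 2) :
    hG B X (m + 1) i t (.S m) = H4 (-4) m 0 (B.h B.ini .L) := by
  rw [hG, if_pos (Or.inr ⟨rfl, hi⟩)]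

theorem hG_S_after {i : ℕ} (t : B.τ) (m : Fin (X * X + 1)) (hi : 3 ≤ i) :
    hG B X (m + 1) i t (.S m) = H4 (-30) m 0 (B.h B.ini .L) := by
  rw [hG, if_neg]
  rintro (h | h)
  · omega
  · omega

theorem hG_R_zero (t : B.τ) (m : Fin (X * X + 1)) :
    hG B X (m + 1) 0 t (.R m) = H4 (-28) (-(m : ℤ)) 0 (B.h B.ini .L) := by
  rw [hG, if_pos (Or.inr ⟨rfl, rfl⟩)]

theorem hG_R_one (t : B.τ) (m : Fin (X * X + 1)) :
    hG B X (m + 1) 1 t (.R m) = H4 (-5) 0 0 (B.h B.ini .L) := by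
  rw [hG, if_neg, if_pos ⟨rfl, rfl⟩]
  rintro (h | h)
  · omega
  · omega

theorem hG_R_after {i : ℕ} (t : B.τ) (m : Fin (X * X + 1)) (hi : 2 ≤ i) :
    hG B X (m + 1) i t (.R m) = H4 (-2) (-(m : ℤ)) 0 (B.h B.ini .L) := by
  rw [hG, if_neg, if_neg]
  · rintro ⟨_, h⟩
    omega
  · rintro (h | h)
    · omega
    · omega

/-! ## The axioms of the key states -/

theorem key_sle (m : Fin (X * X + 1)) (i i' : ℕ) (hi : i ≤ i') :
    SLe B (m + 1) i B.ini (m + 1) i' B.ini := by
  rcases Nat.lt_or_eq_of_le hi with h | h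
  · exact Or.inr ⟨rfl, Or.inl h⟩
  · exact Or.inr ⟨rfl, Or.inr ⟨h, le_refl _⟩⟩

theorem key_sle' (m m' : Fin (X * X + 1)) (h : m < m') (i i' : ℕ) (t t' : B.τ) :
    SLe B (m + 1) i t (m' + 1) i' t' :=
  Or.inl (by have := Fin.lt_def.1 h; omega)

theorem key_core (m : Fin (X * X + 1)) {i i' : ℕ} (t t' : B.τ) (hi : i ≤ 3) (hi' : i' ≤ 3)
    (p q : Wire (GW B X) (X * X + 1)) (hp : p.IsCore) (hq : q.IsCore)
    (h : hG B X (m + 1) i t p < hG B X (m + 1) i t q) :
    hG B X (m + 1) i' t' p < hG B X (m + 1) i' t' q := by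
  rw [← hG_core_eq B X t t' (Nat.le_add_left 1 _) hi hi' p hp,
    ← hG_core_eq B X t t' (Nat.le_add_left 1 _) hi hi' q hq]
  exact h

theorem key0 (t : B.τ) (m : Fin (X * X + 1)) (p : Wire (GW B X) (X * X + 1)) (hp : p.IsCore) :
    hG B X (m + 1) 0 t (.R m) < hG B X (m + 1) 0 t p ∧
      hG B X (m + 1) 0 t p < hG B X (m + 1) 0 t (.S m) := by
  obtain ⟨z, a, b, c, h, h1, h2⟩ := hG_core_zone B X (M := m + 1) (i := 0) t
    (by have := m.2; omega) p hp
  rw [h, hG_R_zero, hG_S_before B X t m (by norm_num), H4_lt, H4_lt]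
  exact ⟨Or.inl (by linarith), Or.inl (by linarith)⟩

theorem key1 (t : B.τ) (m : Fin (X * X + 1)) (p : Wire (GW B X) (X * X + 1)) (hp : p.IsCore) :
    hG B X (m + 1) 1 t p < hG B X (m + 1) 1 t (.R m) := by
  obtain ⟨z, a, b, c, h, h1, h2⟩ := hG_core_zone B X (M := m + 1) (i := 1) t
    (by have := m.2; omega) p hp
  rw [h, hG_R_one, H4_lt]
  exact Or.inl (by linarith)

theorem key1' (t : B.τ) (m : Fin (X * X + 1)) :
    hG B X (m + 1) 1 t (.R m) < hG B X (m + 1) 1 t (.S m) := by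
  rw [hG_R_one, hG_S_before B X t m (by norm_num), H4_lt]
  exact Or.inl (by norm_num)

theorem key2 (t : B.τ) (m : Fin (X * X + 1)) (p : Wire (GW B X) (X * X + 1)) (hp : p.IsCore) :
    hG B X (m + 1) 2 t p < hG B X (m + 1) 2 t (.S m) := by
  obtain ⟨z, a, b, c, h, h1, h2⟩ := hG_core_zone B X (M := m + 1) (i := 2) t
    (by have := m.2; omega) p hp
  rw [h, hG_S_before B X t m (by norm_num), H4_lt]
  exact Or.inl (by linarith)

theorem key2' (t : B.τ) (m : Fin (X * X + 1)) :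
    hG B X (m + 1) 2 t (.S m) < hG B X (m + 1) 2 t (.R m) := by
  rw [hG_R_after B X t m (by norm_num), hG_S_before B X t m (by norm_num), H4_lt]
  exact Or.inl (by norm_num)

theorem key3 (t : B.τ) (m : Fin (X * X + 1)) (p : Wire (GW B X) (X * X + 1)) (hp : p.IsCore) :
    hG B X (m + 1) 3 t (.S m) < hG B X (m + 1) 3 t p := by
  obtain ⟨z, a, b, c, h, h1, h2⟩ := hG_core_zone B X (M := m + 1) (i := 3) t
    (by have := m.2; omega) p hp
  rw [h, hG_S_after B X t m (by norm_num), H4_lt]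
  exact Or.inl (by linarith)

end

end Pool.Agent.W_be22fd_h41
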